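import Mathlib
import Pool.Agent.H6.Dist

set_option autoImplicit false

namespace Pool.Agent.Results.MP_a310d2_co.NoBound

open SimpleGraph

/-- Some shortest `u,v`-path has no internal vertex in `S`. -/
def Visible {V : Type} (G : SimpleGraph V) (S : Set V) (u v : V) : Prop :=
  ∃ p : G.Walk u v, p.length = G.dist u v ∧ ∀ z ∈ p.support, z ≠ u → z ≠ v → z ∉ S

/-- Outer mutual-visibility set. -/
def Outer {V : Type} (G : SimpleGraph V) (S : Set V) : Prop :=
  ∀ u ∈ S, ∀ v, Visible G S u v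

/-- Outer mutual-visibility number. -/
noncomputable def muo {V : Type} (G : SimpleGraph V) : ℕ :=
  sSup {n | ∃ S : Set V, Outer G S ∧ S.ncard = n}

lemma first {V : Type} {G : SimpleGraph V} {v u : V} (p : G.Walk v u) (h : v ≠ u) :
    ∃ t, G.Adj v t ∧ t ∈ p.support ∧ G.dist t u + 1 ≤ p.length := by
  cases p with
  | nil => exact absurd rfl h
  | cons h' q => exact ⟨_, h', by simp, by have := G.dist_le q; simp; omega⟩

lemma blocked {V : Type} {G : SimpleGraph V} {S : Set V} (hS : Outer G S) {u w v : V}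
    (hu : u ∈ S) (hw : w ∈ S) (h1 : w ≠ u) (h2 : v ≠ u)
    (h : ∀ t, G.Adj v t → G.dist t u + 1 ≤ G.dist u v → t = w) : False := by
  obtain ⟨p, hp, hz⟩ := hS u hu v
  obtain ⟨t, ht, hs, hd⟩ := first p.reverse h2
  rw [Walk.length_reverse, hp] at hd
  have := h t ht hd
  subst this
  exact hz t (by simpa using hs) h1 ht.ne' hw

lemma leaves {V : Type} [DecidableEq V] {G : SimpleGraph V} (hG : G.Connected) (S : Set V)
    (h : ∀ z ∈ S, ∀ s t, G.Adj z s → G.Adj z t → s = t) : Outer G S := by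
  intro u _ v
  obtain ⟨p, hp⟩ := (hG u v).exists_walk_length_eq_dist
  refine ⟨p, hp, fun z hz h1 h2 hS => ?_⟩
  have e := congrArg Walk.length (p.take_spec hz)
  rw [Walk.length_append] at e
  obtain ⟨s, hs, -, ds⟩ := first (p.takeUntil z hz).reverse h1
  obtain ⟨t, ht, -, dt⟩ := first (p.dropUntil z hz) h2
  rw [Walk.length_reverse] at ds
  have := h z hS s t hs ht
  subst this
  have := hG.dist_triangle (u := u) (v := s) (w := v)
  rw [G.dist_comm (u := u) (v := s)] at this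
  omega

/-- Vertices: an apex and the points `(spoke, height)`. -/
abbrev W (k L : ℕ) := Option (Fin k × Fin L)

/-- Adjacency of the comb with an apex. -/
def ad {k L : ℕ} : W k L → W k L → Prop
  | none, none => False
  | none, some b => b.2.val + 1 = L
  | some a, none => a.2.val + 1 = L
  | some a, some b => (a.1.val = b.1.val ∧ (a.2.val + 1 = b.2.val ∨ b.2.val + 1 = a.2.val)) ∨
      (a.2.val = 0 ∧ b.2.val = 0 ∧ (a.1.val + 1 = b.1.val ∨ b.1.val + 1 = a.1.val))

/-- The graph. -/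
def G (k L : ℕ) : SimpleGraph (W k L) where
  Adj := ad
  symm := ⟨by rintro (_ | a) (_ | b) h <;> simp only [ad] at h ⊢ <;> omega⟩
  loopless := ⟨by rintro (_ | a) h <;> simp only [ad] at h; omega⟩

/-- Its distance function. -/
def D {k L : ℕ} : W k L → W k L → ℕ
  | none, none => 0
  | none, some b => L - b.2.val
  | some a, none => L - a.2.val
  | some a, some b => if a.1.val = b.1.val then (a.2.val - b.2.val) + (b.2.val - a.2.val) else
      min (a.2.val + ((a.1.val - b.1.val) + (b.1.val - a.1.val)) + b.2.val)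
        ((L - a.2.val) + (L - b.2.val))

lemma dG (k L : ℕ) (hk : 0 < k) (hL : k + 4 ≤ L) (u w : W k L) :
    (G k L).Reachable u w ∧ (G k L).dist u w = D u w := by
  refine Pool.Agent.H6.Dist.reach_dist (G k L) D ?_ ?_ ?_ u w
  · rintro (_ | a) <;> simp [D]
  · rintro (_ | ⟨⟨i, hi⟩, ⟨a, ha⟩⟩) (_ | ⟨⟨j, hj⟩, ⟨b, hb⟩⟩) (_ | ⟨⟨l, hl⟩, ⟨c, hc⟩⟩) h <;>
      simp only [G, ad] at h <;> simp only [D] <;> (try split_ifs) <;> omega
  · rintro (_ | ⟨⟨i, hi⟩, ⟨a, ha⟩⟩) (_ | ⟨⟨j, hj⟩, ⟨b, hb⟩⟩)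
    · exact Or.inl rfl
    · refine Or.inr ⟨some (⟨j, hj⟩, ⟨L - 1, by omega⟩), ?_, ?_⟩
      · simp only [G, ad]; omega
      · simp only [D, if_true]; omega
    · by_cases h : a + 1 = L
      · refine Or.inr ⟨none, ?_, ?_⟩
        · simp only [G, ad]; omega
        · simp only [D]; omega
      · refine Or.inr ⟨some (⟨i, hi⟩, ⟨a + 1, by omega⟩), ?_, ?_⟩
        · simp [G, ad]
        · simp only [D]; omega
    · have up : (∀ h : a + 1 < L, D (some (⟨i, hi⟩, ⟨a + 1, h⟩) : W k L) (some (⟨j, hj⟩, ⟨b, hb⟩))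
          + 1 = D (some (⟨i, hi⟩, ⟨a, ha⟩) : W k L) (some (⟨j, hj⟩, ⟨b, hb⟩))) → a + 1 < L →
          ∃ v, (G k L).Adj (some (⟨i, hi⟩, ⟨a, ha⟩)) v ∧ D v (some (⟨j, hj⟩, ⟨b, hb⟩)) + 1 =
            D (some (⟨i, hi⟩, ⟨a, ha⟩) : W k L) (some (⟨j, hj⟩, ⟨b, hb⟩)) :=
        fun h h' => ⟨_, by simp [G, ad], h h'⟩
      have down : (D (some (⟨i, hi⟩, ⟨a - 1, by omega⟩) : W k L) (some (⟨j, hj⟩, ⟨b, hb⟩))
          + 1 = D (some (⟨i, hi⟩, ⟨a, ha⟩) : W k L) (some (⟨j, hj⟩, ⟨b, hb⟩))) → 0 < a →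
          ∃ v, (G k L).Adj (some (⟨i, hi⟩, ⟨a, ha⟩)) v ∧ D v (some (⟨j, hj⟩, ⟨b, hb⟩)) + 1 =
            D (some (⟨i, hi⟩, ⟨a, ha⟩) : W k L) (some (⟨j, hj⟩, ⟨b, hb⟩)) :=
        fun h h' => ⟨_, by simp only [G, ad, true_and]; omega, h⟩
      by_cases hij : i = j
      · subst hij
        rcases lt_trichotomy a b with h | h | h
        · exact Or.inr (up (fun _ => by simp only [D, if_true]; omega) (by omega))
        · subst h; exact Or.inl rfl
        · exact Or.inr (down (by simp only [D, if_true]; omega) (by omega))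
      · right
        by_cases hc : a + ((i - j) + (j - i)) + b ≤ (L - a) + (L - b)
        · by_cases h0 : 0 < a
          · exact down (by simp only [D, if_neg hij]; omega) h0
          · rcases lt_or_gt_of_ne hij with h | h
            · refine ⟨some (⟨i + 1, by omega⟩, ⟨0, by omega⟩), ?_, ?_⟩
              · simp only [G, ad, true_or, and_true]; omega
              · simp only [D, if_neg hij]; split_ifs <;> omega
            · refine ⟨some (⟨i - 1, by omega⟩, ⟨0, by omega⟩), ?_, ?_⟩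
              · simp only [G, ad, true_and]; omega
              · simp only [D, if_neg hij]; split_ifs <;> omega
        · by_cases h1 : a + 1 < L
          · exact up (fun _ => by simp only [D, if_neg hij]; omega) h1
          · refine ⟨none, ?_, ?_⟩
            · simp only [G, ad]; omega
            · simp only [D, if_neg hij]; omega

section Upper
variable {k L : ℕ} (hk : 0 < k) (hL : k + 4 ≤ L) {S : Set (W k L)} (hS : Outer (G k L) S)
include hk hL hS

lemma upB (u w : Fin k × Fin L) (hu : some u ∈ S) (hw : some w ∈ S) (hne : w ≠ u)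
    (h1 : w.2.val + 1 < L)
    (h2 : (u.1.val = w.1.val ∧ u.2.val < w.2.val) ∨ (u.1.val ≠ w.1.val ∧
      2 * u.2.val + 2 * w.2.val + ((u.1.val - w.1.val) + (w.1.val - u.1.val)) + 3 ≤ 2 * L)) :
    False := by
  obtain ⟨⟨i, hi⟩, ⟨a, ha⟩⟩ := u
  obtain ⟨⟨j, hj⟩, ⟨b, hb⟩⟩ := w
  simp only at h1 h2
  refine blocked hS hu hw (by simpa using hne) (v := some (⟨j, hj⟩, ⟨b + 1, h1⟩)) ?_ ?_
  · simp only [ne_eq, Option.some.injEq, Prod.mk.injEq, Fin.mk.injEq]; omega
  · rintro (_ | ⟨⟨l, hl⟩, ⟨c, hc⟩⟩) h h'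
    · rw [(dG k L hk hL _ _).2, (dG k L hk hL _ _).2] at h'
      simp only [G, ad] at h
      simp only [D] at h'
      split_ifs at h' <;> omega
    · rw [(dG k L hk hL _ _).2, (dG k L hk hL _ _).2] at h'
      simp only [G, ad] at h
      simp only [D] at h'
      simp only [Option.some.injEq, Prod.mk.injEq, Fin.mk.injEq]
      split_ifs at h' <;> omega

lemma downB (u w : Fin k × Fin L) (hu : some u ∈ S) (hw : some w ∈ S)
    (h1 : 2 ≤ w.2.val) (h2 : u.1.val ≠ w.1.val)
    (h3 : 2 * L + 3 ≤ 2 * u.2.val + 2 * w.2.val + ((u.1.val - w.1.val) + (w.1.val - u.1.val))) :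
    False := by
  obtain ⟨⟨i, hi⟩, ⟨a, ha⟩⟩ := u
  obtain ⟨⟨j, hj⟩, ⟨b, hb⟩⟩ := w
  simp only at h1 h2 h3
  refine blocked hS hu hw ?_ (v := some (⟨j, hj⟩, ⟨b - 1, by omega⟩)) ?_ ?_
  · simp only [ne_eq, Option.some.injEq, Prod.mk.injEq, Fin.mk.injEq]; omega
  · simp only [ne_eq, Option.some.injEq, Prod.mk.injEq, Fin.mk.injEq]; omega
  · rintro (_ | ⟨⟨l, hl⟩, ⟨c, hc⟩⟩) h h'
    · simp only [G, ad] at h
      omega
    · rw [(dG k L hk hL _ _).2, (dG k L hk hL _ _).2] at h'
      simp only [G, ad] at h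
      simp only [D] at h'
      simp only [Option.some.injEq, Prod.mk.injEq, Fin.mk.injEq]
      split_ifs at h' <;> omega

lemma pairB (u w : Fin k × Fin L) (hu : some u ∈ S) (hw : some w ∈ S) (h : u.1.val < w.1.val) :
    2 * L ≤ 2 * u.2.val + 2 * w.2.val + (w.1.val - u.1.val) + 2 ∧
      2 * u.2.val + 2 * w.2.val + (w.1.val - u.1.val) ≤ 2 * L + 2 := by
  have hne : w ≠ u := by rintro rfl; omega
  have a1 := not_and.2 (upB hk hL hS u w hu hw hne)
  have a2 := not_and.2 (upB hk hL hS w u hw hu hne.symm)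
  have a3 := not_and.2 fun h1 => not_and.2 (downB hk hL hS u w hu hw h1)
  have a4 := not_and.2 fun h1 => not_and.2 (downB hk hL hS w u hw hu h1)
  have := u.2.isLt
  have := w.2.isLt
  have := w.1.isLt
  omega

lemma card_le : S.ncard ≤ 15 := by
  classical
  let J : Finset ℕ := (Finset.range k).filter fun i => ∃ u : Fin k × Fin L, some u ∈ S ∧ u.1.val = i
  have hJ : J.card ≤ 7 := by
    by_contra hc
    have n1 : J.Nonempty := Finset.card_pos.1 (by omega)
    let J' := (J.erase (J.min' n1)).erase (J.max' n1)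
    have c1 : 6 ≤ J'.card := by
      have := Finset.pred_card_le_card_erase (s := J) (a := J.min' n1)
      have := Finset.pred_card_le_card_erase (s := J.erase (J.min' n1)) (a := J.max' n1)
      simp only [J']; omega
    have n2 : J'.Nonempty := Finset.card_pos.1 (by omega)
    have sub : J' ⊆ Finset.Icc (J'.min' n2) (J'.max' n2) := fun x hx =>
      Finset.mem_Icc.2 ⟨J'.min'_le x hx, J'.le_max' x hx⟩
    have c2 := Finset.card_le_card sub
    rw [Nat.card_Icc] at c2
    have m1 := J'.min'_mem n2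
    have m2 := J'.max'_mem n2
    simp only [J', Finset.mem_erase] at m1 m2
    have l1 := J.min'_le _ m1.2.2
    have l2 := J.le_max' _ m2.2.2
    obtain ⟨-, p1, hp1, e1⟩ := Finset.mem_filter.1 (J.min'_mem n1)
    obtain ⟨-, p2, hp2, e2⟩ := Finset.mem_filter.1 m1.2.2
    obtain ⟨-, p3, hp3, e3⟩ := Finset.mem_filter.1 m2.2.2
    obtain ⟨-, p4, hp4, e4⟩ := Finset.mem_filter.1 (J.max'_mem n1)
    have k1 := m1.2.1
    have k2 := m2.1
    simp only [J'] at c2 c1
    have q1 := pairB hk hL hS p1 p2 hp1 hp2 (by omega)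
    have q2 := pairB hk hL hS p3 p4 hp3 hp4 (by omega)
    have q3 := pairB hk hL hS p1 p3 hp1 hp3 (by omega)
    have q4 := pairB hk hL hS p2 p4 hp2 hp4 (by omega)
    omega
  let f : W k L → Option (ℕ × Bool) := fun v => v.map fun u => (u.1.val, decide (u.2.val + 1 = L))
  have := Set.ncard_le_ncard_of_injOn (s := S)
    (t := ((insert none ((J ×ˢ (Finset.univ : Finset Bool)).image some) :
      Finset (Option (ℕ × Bool))) : Set (Option (ℕ × Bool)))) f ?_ ?_
  · rw [Set.ncard_coe_finset] at this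
    have h1 := Finset.card_insert_le none ((J ×ˢ (Finset.univ : Finset Bool)).image some)
    have h2 := Finset.card_image_le (s := J ×ˢ (Finset.univ : Finset Bool)) (f := some)
    rw [Finset.card_product] at h2
    simp only [Finset.card_univ, Fintype.card_bool] at h2
    omega
  · rintro (_ | u) hu
    · simp [f]
    · simp only [f, Option.map_some, Finset.coe_insert, Set.mem_insert_iff, Finset.mem_coe,
        Finset.mem_image]
      refine Or.inr ⟨_, Finset.mem_product.2 ⟨?_, Finset.mem_univ _⟩, rfl⟩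
      exact Finset.mem_filter.2 ⟨Finset.mem_range.2 u.1.isLt, u, hu, rfl⟩
  · rintro (_ | u) hu (_ | w) hw h
    · rfl
    · simp [f] at h
    · simp [f] at h
    · simp only [f, Option.map_some, Option.some.injEq, Prod.mk.injEq, decide_eq_decide] at h
      by_contra hne
      have hne' : w ≠ u := by rintro rfl; exact hne rfl
      have a1 := not_and.2 (upB hk hL hS u w hu hw hne')
      have a2 := not_and.2 (upB hk hL hS w u hw hu hne'.symm)
      have := u.2.isLt
      have := w.2.isLt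
      have : u.2.val ≠ w.2.val := fun h' => hne' (Prod.ext (Fin.ext h.1.symm) (Fin.ext h'.symm))
      omega

end Upper

lemma conn (k L : ℕ) (hk : 0 < k) (hL : 0 < L) : ((G k L).induce {none}ᶜ).Connected := by
  have key : ∀ n (i a : ℕ) (hi : i < k) (ha : a < L), i + a = n →
      ((G k L).induce {none}ᶜ).Reachable ⟨some (⟨0, hk⟩, ⟨0, hL⟩), by simp⟩
        ⟨some (⟨i, hi⟩, ⟨a, ha⟩), by simp⟩ := by
    intro n
    induction n with
    | zero =>
      intro i a hi ha h
      obtain rfl : i = 0 := by omega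
      obtain rfl : a = 0 := by omega
      rfl
    | succ n ih =>
      intro i a hi ha h
      rcases a with _ | a
      · refine (ih (i - 1) 0 (by omega) ha (by omega)).trans (Adj.reachable ?_)
        simp only [comap_adj, Function.Embedding.subtype_apply, G, ad, true_and]; omega
      · refine (ih i a hi (by omega) (by omega)).trans (Adj.reachable ?_)
        simp [G, ad]
  refine @Connected.mk _ _ ?_ ⟨⟨some (⟨0, hk⟩, ⟨0, hL⟩), by simp⟩⟩
  rintro ⟨_ | ⟨⟨i, hi⟩, ⟨a, ha⟩⟩, h⟩ ⟨_ | ⟨⟨j, hj⟩, ⟨b, hb⟩⟩, h'⟩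
  · simp at h
  · simp at h
  · simp at h'
  · exact (key _ i a hi ha rfl).symm.trans (key _ j b hj hb rfl)

lemma lower (k L : ℕ) (hk : 0 < k) (hL : 2 ≤ L) : k ≤ muo ((G k L).induce {none}ᶜ) := by
  classical
  let g : Fin k → ↥({none}ᶜ : Set (W k L)) := fun i => ⟨some (i, ⟨L - 1, by omega⟩), by simp⟩
  refine le_csSup ⟨Nat.card ↥({none}ᶜ : Set (W k L)), ?_⟩
    ⟨Set.range g, leaves (conn k L hk (by omega)) _ ?_, ?_⟩
  · rintro _ ⟨Z, -, rfl⟩
    exact Set.ncard_le_card Z
  · rintro _ ⟨i, rfl⟩ ⟨_ | ⟨⟨j, hj⟩, ⟨b, hb⟩⟩, h⟩ ⟨_ | ⟨⟨l, hl⟩, ⟨c, hc⟩⟩, h'⟩ h1 h2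
    · simp at h
    · simp at h
    · simp at h'
    · simp only [comap_adj, Function.Embedding.subtype_apply, G, ad, g] at h1 h2
      simp only [Subtype.mk.injEq, Option.some.injEq, Prod.mk.injEq, Fin.mk.injEq]
      omega
  · rw [Set.ncard_range_of_injective (fun i j h => by simpa [g] using h)]
    simp

theorem result : ¬ ∃ a b : ℝ, ∀ (V : Type) [Finite V] (G : SimpleGraph V) (x : V), G.Connected →
    (G.induce {x}ᶜ).Connected → (muo (G.induce {x}ᶜ) : ℝ) ≤ a * muo G + b := by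
  rintro ⟨a, b, h⟩
  obtain ⟨k, hk⟩ := exists_nat_gt (|a| * 15 + |b|)
  have hk0 : 0 < k := by
    have : (0 : ℝ) < k := lt_of_le_of_lt (by positivity) hk
    exact_mod_cast this
  have h1 := h _ (G k (k + 4)) none ⟨fun u w => (dG k _ hk0 le_rfl u w).1⟩
    (conn k _ hk0 (by omega))
  have h2 : (k : ℝ) ≤ muo ((G k (k + 4)).induce {none}ᶜ) := by
    exact_mod_cast lower k (k + 4) hk0 (by omega)
  have h3 : (muo (G k (k + 4)) : ℝ) ≤ 15 := by
    have : muo (G k (k + 4)) ≤ 15 := by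
      refine csSup_le' ?_
      rintro _ ⟨S, hS, rfl⟩
      exact card_le hk0 le_rfl hS
    exact_mod_cast this
  have h4 : (0 : ℝ) ≤ muo (G k (k + 4)) := Nat.cast_nonneg _
  have h5 := le_abs_self a
  have h6 := le_abs_self b
  have h7 := abs_nonneg a
  nlinarith

end Pool.Agent.Results.MP_a310d2_co.NoBound
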